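import Mathlib
import Pool.Agent.Lib.MP_053343_lc.Defs
import Pool.Agent.Lib.MP_053343_lc.CmcDefs
import Pool.Agent.Lib.MP_053343_lc.Cmc3

/-!
In every transitive model of ZF, the negated form of Q1 of MP_053343_lc is equivalent to the
axiom of countable multiple choice.
-/

namespace Pool.Agent.Results.MP_053343_lc.EquivCMC

open Pool.Agent.Lib.MP_053343_lc

theorem result :
    ∀ M : ZFSet.{0}, ModelZF M →
      (CMC M ↔ ∀ X ∈ M, ∀ τ ∈ M, IsTop M X τ → Tychonoff M X τ → CtblPseudo M X τ →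
        ∀ U ∈ M, U ⊆ X → ZOpen M X τ U) := by
  intro M h
  have : Pool.Agent.Shared.InModel.Mdl M := ⟨h⟩
  exact Cmc.cmc_iff

end Pool.Agent.Results.MP_053343_lc.EquivCMC
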