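import Mathlib
import Pool.Agent.Lib.MP_053343_lc.Defs
import Pool.Agent.Lib.MP_053343_lc.Space

/-!
Positive answer to Q1 of MP_053343_lc: a transitive model of ZF containing a Tychonoff space
of countable pseudocharacter whose zero-set topology is not discrete.
-/

namespace Pool.Agent.Results.MP_053343_lc.ZFModel

open Pool.Agent.Lib.MP_053343_lc

theorem result :
    ∃ M : ZFSet.{0}, ModelZF M ∧ ∃ X ∈ M, ∃ τ ∈ M,
      IsTop M X τ ∧ Tychonoff M X τ ∧ CtblPseudo M X τ ∧
        ¬ ∀ U ∈ M, U ⊆ X → ZOpen M X τ U := by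
  obtain ⟨C, h⟩ := exists_good
  exact ⟨C.M, h.model, h.main⟩

end Pool.Agent.Results.MP_053343_lc.ZFModel
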